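import Mathlib

namespace Pool.Agent.MP_c351d3_co

open SimpleGraph

/-- `D` dominates the vertex set `X` in `G`: every vertex of `X` lies in `D` or has a neighbour
in `D`. -/
def Dominates {V : Type} (G : SimpleGraph V) (D : Finset V) (X : Set V) : Prop :=
  ∀ v ∈ X, v ∈ D ∨ ∃ w ∈ D, G.Adj v w

/-- The domination number of `G`: the least size of a set dominating all vertices. -/
noncomputable def gamma {V : Type} (G : SimpleGraph V) : ℕ :=
  sInf {n | ∃ D : Finset V, Dominates G D Set.univ ∧ D.card = n}

/-- `G` satisfies Vizing's conjecture: `γ(G □ H) ≥ γ(G) γ(H)` for every finite graph `H`. -/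
def SatisfiesVizing {V : Type} (G : SimpleGraph V) : Prop :=
  ∀ (W : Type) [Fintype W] (H : SimpleGraph W), gamma G * gamma H ≤ gamma (G □ H)

/-- `S` is attachable in `G`: it is nonempty and for every finite graph `H`, every set `D` of
vertices of `G □ H` dominating `V(G - S) × V(H)` has at least `γ(G) γ(H)` elements. -/
def Attachable {V : Type} (G : SimpleGraph V) (S : Set V) : Prop :=
  S.Nonempty ∧ ∀ (W : Type) [Fintype W] (H : SimpleGraph W) (D : Finset (V × W)),
    Dominates (G □ H) D {x | x.1 ∉ S} → gamma G * gamma H ≤ D.card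

/-- The graph `G - u`. -/
abbrev del {V : Type} (G : SimpleGraph V) (u : V) : SimpleGraph {v : V | v ≠ u} :=
  G.induce {v : V | v ≠ u}

end Pool.Agent.MP_c351d3_co
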