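import Mathlib
import Pool.Agent.Lib.MP_c351d3_co.Defs

namespace Pool.Agent.MP_c351d3_co

open SimpleGraph Finset

section Basic

variable {V W : Type}

lemma gamma_le {G : SimpleGraph V} {D : Finset V} (h : Dominates G D Set.univ) :
    gamma G ≤ D.card := by
  have hm : D.card ∈ {n | ∃ D : Finset V, Dominates G D Set.univ ∧ D.card = n} := ⟨D, h, rfl⟩
  exact Nat.sInf_le hm

lemma exists_gamma [Fintype V] (G : SimpleGraph V) :
    ∃ D : Finset V, Dominates G D Set.univ ∧ D.card = gamma G := by
  have hne : {n | ∃ D : Finset V, Dominates G D Set.univ ∧ D.card = n}.Nonempty :=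
    ⟨_, Finset.univ, fun v _ => Or.inl (Finset.mem_univ v), rfl⟩
  exact Nat.sInf_mem hne

lemma le_gamma [Fintype V] {G : SimpleGraph V} {m : ℕ}
    (h : ∀ D : Finset V, Dominates G D Set.univ → m ≤ D.card) : m ≤ gamma G := by
  obtain ⟨D, hD, hc⟩ := exists_gamma G
  rw [← hc]; exact h D hD

lemma Dominates.mono {G G' : SimpleGraph V} {D : Finset V} {X : Set V} (hG : G ≤ G')
    (h : Dominates G D X) : Dominates G' D X := by
  intro v hv
  rcases h v hv with h1 | ⟨w, hw, h2⟩
  · exact Or.inl h1
  · exact Or.inr ⟨w, hw, hG h2⟩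

/-- If `γ(G - u) ≥ m`, `γ(G) ≥ m` then every set dominating `V ∖ {u}` has at least `m` elements. -/
lemma card_of_dominates_compl {G : SimpleGraph V} {u : V} {m : ℕ} (h1 : m ≤ gamma G)
    (h2 : m ≤ gamma (del G u)) {D : Finset V} (hD : Dominates G D {v | v ≠ u}) : m ≤ D.card := by
  classical
  by_cases hu : u ∈ D
  · refine h1.trans (gamma_le ?_)
    intro v _
    by_cases hv : v = u
    · subst hv; exact Or.inl hu
    · exact hD v hv
  · let D' : Finset {v : V | v ≠ u} := D.subtype (fun v => v ∈ {v : V | v ≠ u})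
    have hD' : Dominates (del G u) D' Set.univ := by
      rintro ⟨v, hv⟩ _
      rcases hD v hv with h | ⟨w, hw, hadj⟩
      · left; simpa [D'] using h
      · right
        have hwu : w ≠ u := by rintro rfl; exact hu hw
        refine ⟨⟨w, hwu⟩, by simpa [D'] using hw, ?_⟩
        simpa using hadj
    refine h2.trans ((gamma_le hD').trans ?_)
    simp only [D', Finset.card_subtype]
    exact Finset.card_filter_le _ _

end Basic

end Pool.Agent.MP_c351d3_co
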