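import Mathlib
import Pool.Agent.Lib.MP_c351d3_co.Basic

/-!
The Barcalkin-German argument with one fibre left undominated.
-/

namespace Pool.Agent.MP_c351d3_co

open SimpleGraph Finset

variable {V W : Type}

/-- The labelling argument. The classes of `c` in `R` are cliques of `G`, every set dominating `R`
in `G` has at least `k` elements and every dominating set of `H` has at least `m` elements. -/
theorem card_of_labelling [Fintype V] [Fintype W] (G : SimpleGraph V) (H : SimpleGraph W)
    (R : Set V) (k m : ℕ) (c : V → Fin k)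
    (hc : ∀ x y, x ∈ R → c x = c y → y ∈ R → x ≠ y → G.Adj x y)
    (hk : ∀ D : Finset V, Dominates G D R → k ≤ D.card)
    (hm : ∀ D : Finset W, Dominates H D Set.univ → m ≤ D.card)
    (D : Finset (V × W)) (hD : Dominates (G □ H) D {x | x.1 ∈ R}) : k * m ≤ D.card := by
  classical
  rcases isEmpty_or_nonempty V with hV | hV
  · have : k ≤ 0 := by
      simpa using hk ∅ (fun v => (IsEmpty.false v).elim)
    have hk0 : k = 0 := Nat.le_zero.1 this
    simp [hk0]
  -- fibres, present labels, missing labels
  let Dw : W → Finset V := fun w => univ.filter (fun v => (v, w) ∈ D)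
  let P : W → Finset (Fin k) := fun w => ((Dw w).filter (fun v => v ∈ R)).image c
  let I : W → Finset (Fin k) := fun w =>
    univ.filter (fun i => ∀ w', (w' = w ∨ H.Adj w w') → i ∉ P w')
  have hkey : ∀ w, (P w ∪ I w).card ≤ (Dw w).card := by
    intro w
    let r : Fin k → V := fun i => if h : ∃ v ∈ R, c v = i then h.choose else Classical.arbitrary V
    have hr : ∀ i, (∃ v ∈ R, c v = i) → r i ∈ R ∧ c (r i) = i := by
      intro i h
      simp only [r, h, dif_pos]
      exact h.choose_spec
    let T : Finset V := (P w ∪ I w)ᶜ.image r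
    have hdom : Dominates G (Dw w ∪ T) R := by
      intro v hv
      by_cases h1 : c v ∈ P w
      · obtain ⟨x, hx, hxv⟩ := mem_image.1 h1
        obtain ⟨hx, hxR⟩ := mem_filter.1 hx
        by_cases hxe : x = v
        · left; rw [mem_union]; left; rw [← hxe]; exact hx
        · right
          exact ⟨x, mem_union_left _ hx, (hc x v hxR hxv hv hxe).symm⟩
      · by_cases h2 : c v ∈ I w
        · simp only [I, mem_filter, mem_univ, true_and] at h2
          rcases hD (v, w) hv with h | ⟨⟨v', w'⟩, h, hadj⟩
          · exact absurd (mem_image.2 ⟨v, by simp [Dw, h, hv], rfl⟩) (h2 w (Or.inl rfl))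
          · rw [boxProd_adj] at hadj
            rcases hadj with ⟨h3, h4⟩ | ⟨h3, h4⟩
            · simp only at h3 h4
              subst h4
              right
              exact ⟨v', mem_union_left _ (by simp [Dw, h]), h3⟩
            · simp only at h3 h4
              subst h4
              exact absurd (mem_image.2 ⟨v, by simp [Dw, h, hv], rfl⟩) (h2 w' (Or.inr h3))
        · have hmem : r (c v) ∈ T := mem_image.2 ⟨c v, by simp [h1, h2], rfl⟩
          by_cases hxe : r (c v) = v
          · left; rw [mem_union]; right; rw [hxe] at hmem; exact hmem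
          · right
            obtain ⟨hr1, hr2⟩ := hr (c v) ⟨v, hv, rfl⟩
            exact ⟨r (c v), mem_union_right _ hmem, (hc _ v hr1 hr2 hv hxe).symm⟩
    have h1 := hk _ hdom
    have h2 : (Dw w ∪ T).card ≤ (Dw w).card + (k - (P w ∪ I w).card) := by
      refine (card_union_le _ _).trans (Nat.add_le_add_left ?_ _)
      refine card_image_le.trans ?_
      rw [card_compl, Fintype.card_fin]
    have h3 : (P w ∪ I w).card ≤ k := by
      simpa using card_le_univ (P w ∪ I w)
    omega
  -- the dominating sets of `H`
  let A : Fin k → Finset W := fun i => univ.filter (fun w => i ∈ P w ∪ I w)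
  have hA : ∀ i, m ≤ (A i).card := by
    intro i
    refine hm _ ?_
    intro w _
    by_cases h : i ∈ I w
    · left; simp [A, h]
    · simp only [I, mem_filter, mem_univ, true_and, not_forall, not_not] at h
      obtain ⟨w', hw', hi⟩ := h
      rcases hw' with rfl | hw'
      · left; simp [A, hi]
      · right; exact ⟨w', by simp [A, hi], hw'⟩
  have hDsum : ∑ w, (Dw w).card = D.card := by
    rw [Finset.card_eq_sum_card_fiberwise (f := Prod.snd) (t := univ) (by simp)]
    refine Finset.sum_congr rfl fun w _ => ?_
    symm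
    refine Finset.card_bij (fun x _ => x.1) ?_ ?_ ?_
    · rintro ⟨v, w'⟩ hx
      simp only [mem_filter] at hx
      obtain ⟨hx, rfl⟩ := hx
      simp [Dw, hx]
    · rintro ⟨v, w1⟩ hx ⟨v', w2⟩ hx' h
      simp only [mem_filter] at hx hx'
      obtain ⟨_, rfl⟩ := hx
      obtain ⟨_, rfl⟩ := hx'
      simp only at h
      rw [h]
    · intro v hv
      refine ⟨(v, w), ?_, rfl⟩
      simpa [Dw] using hv
  calc k * m = ∑ _i : Fin k, m := by simp
    _ ≤ ∑ i, (A i).card := Finset.sum_le_sum fun i _ => hA i
    _ = ∑ w, (P w ∪ I w).card := by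
        simp only [A, card_filter]
        rw [Finset.sum_comm]
        refine Finset.sum_congr rfl fun w _ => ?_
        rw [← card_filter]
        congr 1
        ext i
        simp
    _ ≤ ∑ w, (Dw w).card := Finset.sum_le_sum fun w _ => hkey w
    _ = D.card := hDsum

/-- If `G` is a spanning subgraph of `G'`, `γ(G')` and `γ(G' - u)` are at least `γ(G)` and
`V ∖ {u}` is covered by `γ(G)` cliques of `G'`, then `{u}` is attachable in `G`. -/
theorem attachable_of_cliques [Fintype V] (G G' : SimpleGraph V) (u : V) (hGG : G ≤ G')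
    (h1 : gamma G ≤ gamma G') (h2 : gamma G ≤ gamma (del G' u)) (C : Fin (gamma G) → Set V)
    (hC : ∀ i, G'.IsClique (C i)) (hcov : ∀ v, v ≠ u → ∃ i, v ∈ C i) : Attachable G {u} := by
  classical
  refine ⟨⟨u, rfl⟩, ?_⟩
  intro W _ H D hD
  have hpos : 0 < gamma G := by
    rw [Nat.pos_iff_ne_zero]
    intro h0
    obtain ⟨E, hE, hE0⟩ := exists_gamma G
    rw [h0, card_eq_zero] at hE0
    subst hE0
    rcases hE u trivial with h | ⟨w, h, _⟩ <;> simp at h
  have hcov' : ∀ v, ∃ i : Fin (gamma G), v ≠ u → v ∈ C i := by
    intro v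
    by_cases hv : v = u
    · exact ⟨⟨0, hpos⟩, fun h => absurd hv h⟩
    · obtain ⟨i, hi⟩ := hcov v hv
      exact ⟨i, fun _ => hi⟩
  choose c hc using hcov'
  have hD' : Dominates (G' □ H) D {x | x.1 ∈ {v : V | v ≠ u}} := by
    refine Dominates.mono ?_ hD
    intro a b hab
    rw [boxProd_adj] at hab ⊢
    rcases hab with h | h
    · left; exact ⟨hGG h.1, h.2⟩
    · right; exact h
  refine card_of_labelling G' H {v | v ≠ u} (gamma G) (gamma H) c ?_ ?_ ?_ D hD'
  · intro x y hx hxy hy hne
    exact hC (c x) (hc x hx) (by rw [hxy]; exact hc y hy) hne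
  · intro E hE
    exact card_of_dominates_compl h1 h2 hE
  · intro E hE
    exact gamma_le hE

end Pool.Agent.MP_c351d3_co
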