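import Mathlib
import Pool.Agent.Lib.MP_c351d3_co.Basic

/-!
Packings with at most one undominated vertex in forests.
-/

namespace Pool.Agent.MP_c351d3_co

open SimpleGraph Finset

variable {V W : Type}

/-- Two vertices are near if their closed neighbourhoods meet. -/
def Near (G : SimpleGraph V) (x y : V) : Prop :=
  ∃ z, (z = x ∨ G.Adj x z) ∧ (z = y ∨ G.Adj y z)

lemma near_self (G : SimpleGraph V) (x : V) : Near G x x := ⟨x, Or.inl rfl, Or.inl rfl⟩

/-- In a forest, a vertex has at most one neighbour that is not farther from the root. -/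
lemma parent_unique {G : SimpleGraph V} (hG : G.IsAcyclic) {r x : V} (hx : G.Reachable r x)
    {z z' : V} (hz : G.Adj x z) (hz' : G.Adj x z') (h : G.dist r z ≤ G.dist r x)
    (h' : G.dist r z' ≤ G.dist r x) : z = z' := by
  classical
  have key : ∀ z, G.Adj x z → G.dist r z ≤ G.dist r x →
      ∃ p : G.Path r x, p.1.penultimate = z := by
    intro z hz h
    obtain ⟨p, hp, hlen⟩ := (hx.trans hz.reachable).exists_path_of_dist
    have hnot : x ∉ p.support := by
      intro hmem
      have h1 : (p.takeUntil x hmem).length < p.length := by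
        refine SimpleGraph.Walk.length_takeUntil_lt_length hmem ?_
        exact hz.ne
      have h2 := SimpleGraph.dist_le (p.takeUntil x hmem)
      omega
    refine ⟨⟨p.concat hz.symm, ?_⟩, ?_⟩
    · exact hp.concat hnot hz.symm
    · simp
  obtain ⟨p, hp⟩ := key z hz h
  obtain ⟨p', hp'⟩ := key z' hz' h'
  have : p = p' := (hG.subsingleton_path r x).elim p p'
  rw [← hp, ← hp', this]

/-- The elimination step. -/
lemma exists_step [Fintype V] {G : SimpleGraph V} (hG : G.IsAcyclic) (X : Finset V)
    (hX : X.Nonempty) :
    ∃ x ∈ X, ∃ y, ∀ x' ∈ X, Near G x x' → (x' = y ∨ G.Adj x' y) := by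
  classical
  obtain ⟨r, hr⟩ := hX
  obtain ⟨x, hx, hmax⟩ := Finset.exists_max_image (X.filter (fun x => G.Reachable r x))
    (fun x => G.dist r x) ⟨r, by simp [hr]⟩
  rw [mem_filter] at hx
  obtain ⟨hxX, hxr⟩ := hx
  -- the parent of `x`
  obtain ⟨y, hy1, hy2⟩ : ∃ y, (x = y ∨ G.Adj x y) ∧
      ∀ z, G.Adj x z → G.dist r z ≤ G.dist r x → z = y := by
    by_cases h : ∃ z, G.Adj x z ∧ G.dist r z ≤ G.dist r x
    · obtain ⟨y, hy, hd⟩ := h
      exact ⟨y, Or.inr hy, fun z hz hzd => parent_unique hG hxr hz hy hzd hd⟩
    · push Not at h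
      exact ⟨x, Or.inl rfl, fun z hz hzd => absurd hzd (not_le.mpr (h z hz))⟩
  refine ⟨x, hxX, y, ?_⟩
  -- a neighbour of `x` in `X` is the parent
  have hnb : ∀ x' ∈ X, G.Adj x x' → x' = y := by
    intro x' hx' hadj
    refine hy2 x' hadj (hmax x' ?_)
    rw [mem_filter]
    exact ⟨hx', hxr.trans hadj.reachable⟩
  rintro x' hx' ⟨z, hz1, hz2⟩
  rcases hz1 with rfl | hz1
  · rcases hz2 with rfl | hz2
    · exact hy1
    · exact Or.inl (hnb x' hx' hz2.symm)
  · rcases hz2 with rfl | hz2
    · exact Or.inl (hnb z hx' hz1)
    · by_cases hd : G.dist r z ≤ G.dist r x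
      · right
        rw [← hy2 z hz1 hd]
        exact hz2
      · push Not at hd
        have hzr : G.Reachable r z := hxr.trans hz1.reachable
        have hx'r : G.Reachable r x' := hzr.trans hz2.symm.reachable
        have h1 : G.dist r x' ≤ G.dist r x := hmax x' (by rw [mem_filter]; exact ⟨hx', hx'r⟩)
        have h2 : x' = x := parent_unique hG hzr hz2.symm hz1.symm (h1.trans hd.le) hd.le
        rw [h2]
        exact hy1

/-- Packing-domination duality in forests, for every set `X` of vertices to be dominated. -/
theorem exists_packing [Fintype V] {G : SimpleGraph V} (hG : G.IsAcyclic) (n : ℕ) :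
    ∀ X : Finset V, X.card ≤ n → ∃ P ⊆ X, (∀ p ∈ P, ∀ q ∈ P, Near G p q → p = q) ∧
      ∃ D : Finset V, Dominates G D X ∧ D.card ≤ P.card := by
  classical
  induction n with
  | zero =>
    intro X hX
    have : X = ∅ := card_eq_zero.1 (by omega)
    subst this
    exact ⟨∅, by simp, by simp, ∅, fun v hv => by simp at hv, by simp⟩
  | succ n ih =>
    intro X hX
    rcases X.eq_empty_or_nonempty with rfl | hne
    · exact ⟨∅, by simp, by simp, ∅, fun v hv => by simp at hv, by simp⟩
    · obtain ⟨x, hx, y, hy⟩ := exists_step hG X hne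
      let X' := X.filter (fun x' => ¬ (x' = y ∨ G.Adj x' y))
      have hxX' : x ∉ X' := by
        simp only [X', mem_filter, not_and, not_not]
        intro _
        exact hy x hx (near_self G x)
      have hlt : X'.card < X.card := by
        refine card_lt_card ?_
        rw [Finset.ssubset_iff_of_subset (filter_subset _ _)]
        exact ⟨x, hx, hxX'⟩
      obtain ⟨P, hPX, hP, D, hD, hcard⟩ := ih X' (by omega)
      refine ⟨insert x P, ?_, ?_, insert y D, ?_, ?_⟩
      · exact insert_subset hx (hPX.trans (filter_subset _ _))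
      · have hxP : ∀ p ∈ P, ¬ Near G x p := by
          intro p hp hn
          have h1 := hPX hp
          simp only [X', mem_filter] at h1
          exact h1.2 (hy p h1.1 hn)
        intro p hp q hq hn
        rcases mem_insert.1 hp with hpx | hp' <;> rcases mem_insert.1 hq with hqx | hq'
        · rw [hpx, hqx]
        · subst hpx
          exact absurd hn (hxP q hq')
        · subst hqx
          obtain ⟨z, h1, h2⟩ := hn
          exact absurd ⟨z, h2, h1⟩ (hxP p hp')
        · exact hP p hp' q hq' hn
      · intro v hv
        by_cases h : v = y ∨ G.Adj v y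
        · rcases h with rfl | h
          · left; simp
          · right; exact ⟨y, by simp, h⟩
        · have hv' : v ∈ (X' : Set V) := by
            have : v ∈ X' := by
              simp only [X', mem_filter]
              exact ⟨hv, h⟩
            exact this
          rcases hD v hv' with h1 | ⟨w, hw, hadj⟩
          · left; exact mem_insert_of_mem h1
          · right; exact ⟨w, mem_insert_of_mem hw, hadj⟩
      · have hxP : x ∉ P := fun h => hxX' (hPX h)
        rw [card_insert_of_notMem hxP]
        exact (card_insert_le _ _).trans (by omega)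

/-- A packing avoiding `S` gives the Vizing bound for sets dominating `(V ∖ S) × W`. -/
theorem card_of_packing [Fintype W] (G : SimpleGraph V) (H : SimpleGraph W)
    (P : Finset V) (hP : ∀ p ∈ P, ∀ q ∈ P, Near G p q → p = q) (D : Finset (V × W))
    (hD : Dominates (G □ H) D {x | x.1 ∈ P}) : P.card * gamma H ≤ D.card := by
  classical
  let Dp : V → Finset (V × W) := fun p => D.filter (fun x => x.1 = p ∨ G.Adj p x.1)
  have h1 : ∀ p ∈ P, gamma H ≤ (Dp p).card := by
    intro p hp
    have hd : Dominates H ((Dp p).image Prod.snd) Set.univ := by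
      intro w _
      rcases hD (p, w) hp with h | ⟨⟨v', w'⟩, h, hadj⟩
      · left; exact mem_image.2 ⟨(p, w), by simp [Dp, h], rfl⟩
      · rw [boxProd_adj] at hadj
        rcases hadj with ⟨h3, h4⟩ | ⟨h3, h4⟩
        · left
          simp only at h3 h4
          subst h4
          exact mem_image.2 ⟨(v', w), by simp [Dp, h, h3], rfl⟩
        · right
          simp only at h3 h4
          subst h4
          exact ⟨w', mem_image.2 ⟨(p, w'), by simp [Dp, h], rfl⟩, h3⟩
    exact (gamma_le hd).trans card_image_le
  have hdisj : (P : Set V).PairwiseDisjoint Dp := by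
    intro p hp q hq hpq
    rw [Function.onFun, Finset.disjoint_left]
    intro x hx hx'
    simp only [Dp, mem_filter] at hx hx'
    exact hpq (hP p hp q hq ⟨x.1, hx.2, hx'.2⟩)
  calc P.card * gamma H = ∑ _p ∈ P, gamma H := by simp
    _ ≤ ∑ p ∈ P, (Dp p).card := Finset.sum_le_sum h1
    _ = (P.biUnion Dp).card := (card_biUnion hdisj).symm
    _ ≤ D.card := card_le_card (by
        intro x hx
        simp only [mem_biUnion] at hx
        obtain ⟨a, _, hx⟩ := hx
        exact (mem_filter.1 hx).1)

/-- Q1 for forests. -/
theorem attachable_forest [Fintype V] (G : SimpleGraph V) (hG : G.IsAcyclic) (u : V)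
    (hu : gamma G ≤ gamma (del G u)) : Attachable G {u} := by
  classical
  refine ⟨⟨u, rfl⟩, ?_⟩
  intro W _ H D hD
  obtain ⟨P, hPX, hP, E, hE, hcard⟩ := exists_packing hG (univ.erase u).card (univ.erase u) le_rfl
  have h1 : gamma G ≤ E.card := by
    refine card_of_dominates_compl (u := u) le_rfl hu ?_
    intro v hv
    exact hE v (by simpa using hv)
  have h2 : Dominates (G □ H) D {x | x.1 ∈ P} := by
    intro x hx
    refine hD x ?_
    have := hPX hx
    simpa using this
  calc gamma G * gamma H ≤ P.card * gamma H := Nat.mul_le_mul_right _ (h1.trans hcard)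
    _ ≤ D.card := card_of_packing G H P hP D h2

end Pool.Agent.MP_c351d3_co
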