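import Mathlib
import Pool.Agent.Lib.MP_c351d3_co.Basic

/-!
`t` copies of `G`, an apex adjacent to all copies of `u`, and a leaf at the apex.
-/

namespace Pool.Agent.MP_c351d3_co

open SimpleGraph Finset

variable {V W : Type}

/-- `t` copies of `G` together with an apex `inr true`, adjacent to the copies of `u`, and a leaf
`inr false` at the apex. -/
def starGraph (G : SimpleGraph V) (u : V) (t : ℕ) : SimpleGraph ((Fin t × V) ⊕ Bool) where
  Adj x y := match x, y with
    | Sum.inl (i, v), Sum.inl (j, w) => i = j ∧ G.Adj v w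
    | Sum.inl (_, v), Sum.inr b => v = u ∧ b = true
    | Sum.inr b, Sum.inl (_, v) => v = u ∧ b = true
    | Sum.inr b, Sum.inr c => b ≠ c
  symm := ⟨by
    rintro (⟨i, v⟩ | b) (⟨j, w⟩ | c) h
    · exact ⟨h.1.symm, h.2.symm⟩
    · exact h
    · exact h
    · exact Ne.symm h⟩
  loopless := ⟨by
    rintro (⟨i, v⟩ | b) h
    · exact G.loopless.irrefl v h.2
    · exact h rfl⟩

lemma gamma_star [Fintype V] (G : SimpleGraph V) (u : V) (t : ℕ)
    (hu : gamma G ≤ gamma (del G u)) : 1 + t * gamma G ≤ gamma (starGraph G u t) := by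
  classical
  refine le_gamma fun S hS => ?_
  let Si : Fin t → Finset V := fun i => univ.filter (fun v => (Sum.inl (i, v) : (Fin t × V) ⊕ Bool) ∈ S)
  have hSi : ∀ i, gamma G ≤ (Si i).card := by
    intro i
    refine card_of_dominates_compl (u := u) le_rfl hu ?_
    intro v hv
    rcases hS (Sum.inl (i, v)) trivial with h | ⟨w, hw, hadj⟩
    · left; simpa [Si] using h
    · rcases w with ⟨j, w⟩ | b
      · right
        obtain ⟨hij, hvw⟩ : i = j ∧ G.Adj v w := hadj
        subst hij
        exact ⟨w, by simpa [Si] using hw, hvw⟩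
      · obtain ⟨h1, _⟩ : v = u ∧ b = true := hadj
        exact absurd h1 hv
  let T : Finset ((Fin t × V) ⊕ Bool) :=
    ((univ : Finset (Fin t)).biUnion fun i => (Si i).image fun v => Sum.inl (i, v))
  have hTcard : T.card = ∑ i, (Si i).card := by
    rw [Finset.card_biUnion]
    · refine Finset.sum_congr rfl fun i _ => ?_
      rw [Finset.card_image_of_injective]
      intro v w h
      simpa using h
    · intro i _ j _ hij
      rw [Function.onFun, Finset.disjoint_left]
      intro x hx hx'
      simp only [mem_image] at hx hx'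
      obtain ⟨v, _, rfl⟩ := hx
      obtain ⟨w, _, hw⟩ := hx'
      simp only [Sum.inl.injEq, Prod.mk.injEq] at hw
      exact hij hw.1.symm
  have hTsub : T ⊆ S := by
    intro x hx
    simp only [T, mem_biUnion, mem_image, mem_univ, true_and] at hx
    obtain ⟨i, v, hv, rfl⟩ := hx
    simpa [Si] using hv
  obtain ⟨b, hb⟩ : ∃ b : Bool, (Sum.inr b : (Fin t × V) ⊕ Bool) ∈ S := by
    rcases hS (Sum.inr false) trivial with h | ⟨w, hw, hadj⟩
    · exact ⟨false, h⟩
    · rcases w with ⟨j, w⟩ | b
      · obtain ⟨_, h2⟩ : w = u ∧ false = true := hadj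
        exact absurd h2 (by simp)
      · exact ⟨b, hw⟩
  have hins : insert (Sum.inr b) T ⊆ S := by
    intro x hx
    rw [mem_insert] at hx
    rcases hx with rfl | hx
    · exact hb
    · exact hTsub hx
  have hnot : (Sum.inr b : (Fin t × V) ⊕ Bool) ∉ T := by
    simp [T]
  calc 1 + t * gamma G = ∑ _i : Fin t, gamma G + 1 := by simp [add_comm]
    _ ≤ ∑ i, (Si i).card + 1 := by gcongr with i; exact hSi i
    _ = (insert (Sum.inr b) T).card := by rw [card_insert_of_notMem hnot, hTcard]
    _ ≤ S.card := card_le_card hins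

/-- The transfer: if `H` satisfies Vizing's conjecture, then deleting the domination requirement
on the fibre over `u` does not help, for every graph `G` with `γ(G - u) ≥ γ(G)`. -/
theorem le_card_of_partner [Fintype V] [Fintype W] (G : SimpleGraph V) (u : V)
    (hu : gamma G ≤ gamma (del G u)) (H : SimpleGraph W) (hH : SatisfiesVizing H)
    (D : Finset (V × W)) (hD : Dominates (G □ H) D {x | x.1 ≠ u}) :
    gamma G * gamma H ≤ D.card := by
  classical
  set t : ℕ := Fintype.card W + 1 with ht
  let D1 : Finset (W × ((Fin t × V) ⊕ Bool)) :=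
    ((univ : Finset (Fin t)) ×ˢ D).image (fun p => (p.2.2, Sum.inl (p.1, p.2.1)))
  let D2 : Finset (W × ((Fin t × V) ⊕ Bool)) :=
    (univ : Finset W).image (fun w => (w, Sum.inr true))
  have hdom : Dominates (H □ starGraph G u t) (D1 ∪ D2) Set.univ := by
    rintro ⟨w, (⟨i, v⟩ | b)⟩ _
    · by_cases hv : v = u
      · subst hv
        right
        refine ⟨(w, Sum.inr true), ?_, ?_⟩
        · rw [mem_union]; right
          exact mem_image.2 ⟨w, mem_univ _, rfl⟩
        · rw [boxProd_adj]
          right
          exact ⟨⟨rfl, rfl⟩, rfl⟩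
      · rcases hD (v, w) hv with h | ⟨⟨v', w'⟩, h, hadj⟩
        · left
          rw [mem_union]; left
          exact mem_image.2 ⟨(i, (v, w)), by simp [h], rfl⟩
        · right
          refine ⟨(w', Sum.inl (i, v')), ?_, ?_⟩
          · rw [mem_union]; left
            exact mem_image.2 ⟨(i, (v', w')), by simp [h], rfl⟩
          · rw [boxProd_adj] at hadj ⊢
            rcases hadj with ⟨h1, h2⟩ | ⟨h1, h2⟩
            · right
              exact ⟨⟨rfl, h1⟩, h2⟩
            · left
              refine ⟨h1, ?_⟩
              simp only at h2 ⊢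
              rw [h2]
    · cases b
      · right
        refine ⟨(w, Sum.inr true), ?_, ?_⟩
        · rw [mem_union]; right
          exact mem_image.2 ⟨w, mem_univ _, rfl⟩
        · rw [boxProd_adj]
          right
          exact ⟨show false ≠ true by simp, rfl⟩
      · left
        rw [mem_union]; right
        exact mem_image.2 ⟨w, mem_univ _, rfl⟩
  have h1 : (D1 ∪ D2).card ≤ t * D.card + Fintype.card W := by
    refine (card_union_le _ _).trans (Nat.add_le_add ?_ ?_)
    · refine card_image_le.trans ?_
      rw [card_product]; simp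
    · refine card_image_le.trans ?_
      simp
  have h2 : gamma H * gamma (starGraph G u t) ≤ t * D.card + Fintype.card W :=
    (hH _ _).trans ((gamma_le hdom).trans h1)
  have h3 : gamma H * (1 + t * gamma G) ≤ t * D.card + Fintype.card W :=
    (Nat.mul_le_mul_left _ (gamma_star G u t hu)).trans h2
  by_contra hcon
  push Not at hcon
  have h4 : t * (D.card + 1) ≤ t * (gamma G * gamma H) := Nat.mul_le_mul_left _ hcon
  nlinarith [Nat.zero_le (gamma H)]

end Pool.Agent.MP_c351d3_co
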