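import Mathlib
import Pool.Agent.Lib.MP_c351d3_co.Star

/-!
Attaching and deleting leaves at the vertices of a minimum dominating set.
-/

namespace Pool.Agent.MP_c351d3_co

open SimpleGraph Finset

variable {V W : Type}

/-- `G` with a new vertex `none` adjacent to `a` only. -/
def addLeaf (G : SimpleGraph V) (a : V) : SimpleGraph (Option V) where
  Adj x y := match x, y with
    | some v, some w => G.Adj v w
    | some v, none => v = a
    | none, some v => v = a
    | none, none => False
  symm := ⟨by
    rintro (_ | v) (_ | w) h
    · exact h
    · exact h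
    · exact h
    · exact G.symm.symm _ _ h⟩
  loopless := ⟨by
    rintro (_ | v) h
    · exact h
    · exact G.loopless.irrefl v h⟩

/-- The graph `G` inside `addLeaf G a`. -/
lemma gamma_del_addLeaf [Fintype V] (G : SimpleGraph V) (a : V) :
    gamma G ≤ gamma (del (addLeaf G a) none) := by
  classical
  refine le_gamma fun D hD => ?_
  have hinj : Function.Injective (fun x : {v : Option V | v ≠ none} =>
      (x.1.get (Option.isSome_iff_ne_none.2 x.2))) := by
    rintro ⟨x, hx⟩ ⟨y, hy⟩ h
    have : x = y := by
      simpa [Option.get_inj] using h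
    exact Subtype.ext this
  have hdom : Dominates G (D.image (fun x : {v : Option V | v ≠ none} =>
      (x.1.get (Option.isSome_iff_ne_none.2 x.2)))) Set.univ := by
    intro v _
    rcases hD ⟨some v, by simp⟩ trivial with h | ⟨⟨w, hw⟩, h, hadj⟩
    · left
      exact mem_image.2 ⟨_, h, by simp⟩
    · right
      obtain ⟨w', rfl⟩ : ∃ w', w = some w' := Option.ne_none_iff_exists'.1 hw
      refine ⟨w', mem_image.2 ⟨_, h, by simp⟩, ?_⟩
      exact hadj
  refine (gamma_le hdom).trans card_image_le

lemma gamma_addLeaf_le [Fintype V] (G : SimpleGraph V) (a : V) (A : Finset V)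
    (hA : Dominates G A Set.univ) (hcard : A.card = gamma G) (ha : a ∈ A) :
    gamma (addLeaf G a) ≤ gamma G := by
  classical
  rw [← hcard]
  have : Dominates (addLeaf G a) (A.image some) Set.univ := by
    rintro (_ | v) _
    · right
      exact ⟨some a, mem_image.2 ⟨a, ha, rfl⟩, rfl⟩
    · rcases hA v trivial with h | ⟨w, hw, hadj⟩
      · left; exact mem_image.2 ⟨v, h, rfl⟩
      · right; exact ⟨some w, mem_image.2 ⟨w, hw, rfl⟩, hadj⟩
  exact (gamma_le this).trans card_image_le

lemma le_gamma_addLeaf [Fintype V] (G : SimpleGraph V) (a : V) :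
    gamma G ≤ gamma (addLeaf G a) := by
  classical
  refine le_gamma fun D hD => ?_
  -- replace the leaf by `a`
  have hdom : Dominates G (D.image (fun x => x.getD a)) Set.univ := by
    intro v _
    rcases hD (some v) trivial with h | ⟨w, hw, hadj⟩
    · left; exact mem_image.2 ⟨some v, h, rfl⟩
    · rcases w with _ | w
      · left
        have : v = a := hadj
        subst this
        exact mem_image.2 ⟨none, hw, rfl⟩
      · right
        exact ⟨w, mem_image.2 ⟨some w, hw, rfl⟩, hadj⟩
  exact (gamma_le hdom).trans card_image_le

/-- If the leaf is attachable then `G` satisfies Vizing's conjecture. -/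
lemma vizing_of_attachable_leaf [Fintype V] (G : SimpleGraph V) (a : V)
    (h : Attachable (addLeaf G a) {none}) : SatisfiesVizing G := by
  classical
  intro W _ H
  refine le_gamma fun D hD => ?_
  have hd : Dominates (addLeaf G a □ H) (D.image (fun x => (some x.1, x.2)))
      {x | x.1 ∉ ({none} : Set (Option V))} := by
    rintro ⟨x, w⟩ hx
    obtain ⟨v, rfl⟩ : ∃ v, x = some v := by
      rcases x with _ | v
      · simp at hx
      · exact ⟨v, rfl⟩
    rcases hD (v, w) trivial with h1 | ⟨⟨v', w'⟩, h1, hadj⟩
    · left; exact mem_image.2 ⟨_, h1, rfl⟩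
    · right
      refine ⟨(some v', w'), mem_image.2 ⟨_, h1, rfl⟩, ?_⟩
      rw [boxProd_adj] at hadj ⊢
      rcases hadj with ⟨h2, h3⟩ | ⟨h2, h3⟩
      · left; exact ⟨h2, h3⟩
      · right
        refine ⟨h2, ?_⟩
        simp only at h3 ⊢
        rw [h3]
  have := h.2 W H _ hd
  calc gamma G * gamma H ≤ gamma (addLeaf G a) * gamma H :=
        Nat.mul_le_mul_right _ (le_gamma_addLeaf G a)
    _ ≤ _ := this
    _ ≤ _ := card_image_le

/-- The base case: every vertex of a minimum dominating set has its own leaf. -/
lemma vizing_of_leaves [Fintype V] (G : SimpleGraph V) (A : Finset V)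
    (hcard : A.card = gamma G) (ℓ : V → V)
    (h1 : ∀ a ∈ A, ∀ v, G.Adj (ℓ a) v → v = a) (h2 : ∀ a ∈ A, ∀ b ∈ A, ℓ a = ℓ b → a = b)
    (h3 : ∀ a ∈ A, ℓ a ∉ A) : SatisfiesVizing G := by
  classical
  intro W _ H
  refine le_gamma fun D hD => ?_
  let Da : V → Finset (V × W) := fun a => D.filter (fun x => x.1 = a ∨ x.1 = ℓ a)
  have hDa : ∀ a ∈ A, gamma H ≤ (Da a).card := by
    intro a ha
    have hd : Dominates H ((Da a).image Prod.snd) Set.univ := by
      intro w _
      rcases hD (ℓ a, w) trivial with h | ⟨⟨v', w'⟩, h, hadj⟩
      · left
        exact mem_image.2 ⟨(ℓ a, w), by simp [Da, h], rfl⟩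
      · rw [boxProd_adj] at hadj
        rcases hadj with ⟨h4, h5⟩ | ⟨h4, h5⟩
        · left
          have : v' = a := h1 a ha v' h4
          simp only at h5
          subst this; subst h5
          exact mem_image.2 ⟨(v', w), by simp [Da, h], rfl⟩
        · right
          simp only at h4 h5
          subst h5
          exact ⟨w', mem_image.2 ⟨(ℓ a, w'), by simp [Da, h], rfl⟩, h4⟩
    exact (gamma_le hd).trans card_image_le
  have hdisj : (A : Set V).PairwiseDisjoint Da := by
    intro a ha b hb hab
    rw [Function.onFun, Finset.disjoint_left]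
    intro x hx hx'
    simp only [Da, mem_filter] at hx hx'
    rcases hx.2 with h | h <;> rcases hx'.2 with h' | h'
    · exact hab (h.symm.trans h')
    · exact h3 b hb (by rw [← h', h]; exact ha)
    · exact h3 a ha (by rw [← h, h']; exact hb)
    · exact hab (h2 a ha b hb (h.symm.trans h'))
  calc gamma G * gamma H = ∑ _a ∈ A, gamma H := by simp [hcard]
    _ ≤ ∑ a ∈ A, (Da a).card := Finset.sum_le_sum hDa
    _ = (A.biUnion Da).card := (card_biUnion hdisj).symm
    _ ≤ D.card := card_le_card (by
        intro x hx
        simp only [mem_biUnion] at hx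
        obtain ⟨a, _, hx⟩ := hx
        exact (mem_filter.1 hx).1)

/-- Induction on the number of vertices of a minimum dominating set without a leaf. -/
lemma vizing_all_aux
    (Q1 : ∀ (V : Type) [Fintype V] (G : SimpleGraph V) (u : V), SatisfiesVizing G →
      gamma G ≤ gamma (del G u) → (∃ a : V, ∀ v : V, G.Adj u v ↔ v = a) → Attachable G {u}) (m : ℕ) :
    ∀ (V : Type) [Fintype V] (G : SimpleGraph V) (A B : Finset V), B ⊆ A →
      Dominates G A Set.univ → A.card = gamma G → A.card = B.card + m →
      ∀ ℓ : V → V, (∀ a ∈ B, ∀ v, G.Adj (ℓ a) v → v = a) →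
        (∀ a ∈ B, ∀ b ∈ B, ℓ a = ℓ b → a = b) → (∀ a ∈ B, ℓ a ∉ A) → SatisfiesVizing G := by
  classical
  induction m with
  | zero =>
    intro V _ G A B hBA hA hcard hm ℓ h1 h2 h3
    have hAB : A = B := (Finset.eq_of_subset_of_card_le hBA (by omega)).symm
    subst hAB
    exact vizing_of_leaves G A hcard ℓ h1 h2 h3
  | succ m ih =>
    intro V _ G A B hBA hA hcard hm ℓ h1 h2 h3
    obtain ⟨a, ha⟩ : ∃ a, a ∈ A ∧ a ∉ B := by
      obtain ⟨a, h, h'⟩ := Finset.exists_mem_notMem_of_card_lt_card (s := B) (t := A) (by omega)
      exact ⟨a, h, h'⟩
    have hle := gamma_addLeaf_le G a A hA hcard ha.1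
    have hge := le_gamma_addLeaf G a
    have hgamma : gamma (addLeaf G a) = gamma G := le_antisymm hle hge
    have hV : SatisfiesVizing (addLeaf G a) := by
      refine ih (Option V) (addLeaf G a) (A.image some) ((insert a B).image some) ?_ ?_ ?_ ?_
        (fun x => if x = some a then none else x.map ℓ) ?_ ?_ ?_
      · refine image_subset_image ?_
        exact insert_subset ha.1 hBA
      · rintro (_ | v) _
        · right
          exact ⟨some a, mem_image.2 ⟨a, ha.1, rfl⟩, rfl⟩
        · rcases hA v trivial with h | ⟨w, hw, hadj⟩
          · left; exact mem_image.2 ⟨v, h, rfl⟩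
          · right; exact ⟨some w, mem_image.2 ⟨w, hw, rfl⟩, hadj⟩
      · rw [card_image_of_injective _ (Option.some_injective V), hgamma, hcard]
      · rw [card_image_of_injective _ (Option.some_injective V),
          card_image_of_injective _ (Option.some_injective V), card_insert_of_notMem ha.2]
        omega
      · rintro x hx v hv
        obtain ⟨b, hb, rfl⟩ := mem_image.1 hx
        by_cases hba : b = a
        · subst hba
          simp only [if_true] at hv
          rcases v with _ | v
          · exact absurd hv (by intro h; exact h)
          · have : v = b := hv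
            rw [this]
        · have hbB : b ∈ B := by
            rcases mem_insert.1 hb with h | h
            · exact absurd h hba
            · exact h
          have hsb : (some b : Option V) ≠ some a := by simpa using hba
          simp only [hsb, if_false, Option.map_some] at hv
          rcases v with _ | v
          · have : ℓ b = a := hv
            exact absurd ha.1 (by rw [← this]; exact h3 b hbB)
          · have : G.Adj (ℓ b) v := hv
            rw [h1 b hbB v this]
      · rintro x hx y hy hxy
        obtain ⟨b, hb, rfl⟩ := mem_image.1 hx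
        obtain ⟨c, hc, rfl⟩ := mem_image.1 hy
        by_cases hba : b = a <;> by_cases hca : c = a
        · rw [hba, hca]
        · have hsc : (some c : Option V) ≠ some a := by simpa using hca
          simp [hba, hsc] at hxy
        · have hsb : (some b : Option V) ≠ some a := by simpa using hba
          simp [hca, hsb] at hxy
        · have hbB : b ∈ B := (mem_insert.1 hb).resolve_left hba
          have hcB : c ∈ B := (mem_insert.1 hc).resolve_left hca
          have hsb : (some b : Option V) ≠ some a := by simpa using hba
          have hsc : (some c : Option V) ≠ some a := by simpa using hca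
          simp only [hsb, hsc, if_false, Option.map_some, Option.some.injEq] at hxy
          rw [h2 b hbB c hcB hxy]
      · rintro x hx hmem
        obtain ⟨b, hb, rfl⟩ := mem_image.1 hx
        by_cases hba : b = a
        · subst hba
          simp at hmem
        · have hbB : b ∈ B := (mem_insert.1 hb).resolve_left hba
          have hsb : (some b : Option V) ≠ some a := by simpa using hba
          simp only [hsb, if_false, Option.map_some, mem_image, Option.some.injEq,
            exists_eq_right] at hmem
          exact h3 b hbB hmem
    refine vizing_of_attachable_leaf G a (Q1 (Option V) (addLeaf G a) none hV ?_ ?_)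
    · exact hle.trans (gamma_del_addLeaf G a)
    · refine ⟨some a, ?_⟩
      rintro (_ | v)
      · constructor
        · intro h; exact absurd h (by intro h; exact h)
        · intro h; simp at h
      · constructor
        · intro h
          have : v = a := h
          rw [this]
        · intro h
          exact Option.some.inj h

/-- A positive answer to Q1 for vertices of degree one implies Vizing's conjecture. -/
theorem vizing_of_Q1
    (Q1 : ∀ (V : Type) [Fintype V] (G : SimpleGraph V) (u : V), SatisfiesVizing G →
      gamma G ≤ gamma (del G u) → (∃ a : V, ∀ v : V, G.Adj u v ↔ v = a) → Attachable G {u})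
    (V : Type) [Fintype V] (G : SimpleGraph V) : SatisfiesVizing G := by
  classical
  obtain ⟨A, hA, hcard⟩ := exists_gamma G
  exact vizing_all_aux Q1 A.card V G A ∅ (by simp) hA hcard (by simp) id (by simp) (by simp) (by simp)

end Pool.Agent.MP_c351d3_co
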